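import Pool.Agent.Helper64.SPX.Spec

/-!
# SPX swarm, part PARS: spectra and the identity of Parseval
-/

set_option autoImplicit false

open MeasureTheory Filter Topology Set
open scoped InnerProductSpace ENNReal ComplexConjugate

namespace Pool.Agent.Helper94.SPX.PARS

open Pool.Agent.Helper64.SPX

lemma ee_eq (θ : ℝ) : ee θ = Complex.exp (((2 * Real.pi * θ : ℝ) : ℂ) * Complex.I) := by
  rw [ee]; push_cast; rfl

lemma norm_ee (θ : ℝ) : ‖ee θ‖ = 1 := by
  rw [ee_eq, Complex.norm_exp_ofReal_mul_I]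

lemma ee_add (a b : ℝ) : ee (a + b) = ee a * ee b := by
  rw [ee, ee, ee, ← Complex.exp_add]; congr 1; push_cast; ring

lemma ee_zero : ee 0 = 1 := by simp [ee]

lemma conj_ee (θ : ℝ) : conj (ee θ) = ee (-θ) := by
  rw [ee, ee, ← Complex.exp_conj]; congr 1
  simp only [map_mul, Complex.conj_ofReal, Complex.conj_I, Complex.ofReal_neg, map_ofNat]
  ring

lemma continuous_ee : Continuous ee := by unfold ee; fun_prop

section

variable {ι : Type} [Fintype ι]

lemma continuous_chi (a : E ι) : Continuous fun x : E ι => ee ⟪a, x⟫_ℝ :=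
  continuous_ee.comp (continuous_const.inner continuous_id)

variable {μ : Measure (E ι)} [IsFiniteMeasure μ]

lemma memLp_chi (a : E ι) : MemLp (fun x : E ι => ee ⟪a, x⟫_ℝ) 2 μ :=
  MemLp.of_bound (continuous_chi a).aestronglyMeasurable 1 (ae_of_all _ fun x => (norm_ee _).le)

lemma inner_toLp {f g : E ι → ℂ} (hf : MemLp f 2 μ) (hg : MemLp g 2 μ) :
    inner ℂ (hf.toLp f) (hg.toLp g) = ∫ x, g x * conj (f x) ∂μ := by
  rw [L2.inner_def]
  refine integral_congr_ae ?_
  filter_upwards [hf.coeFn_toLp, hg.coeFn_toLp] with x h1 h2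
  rw [h1, h2, RCLike.inner_apply]

lemma norm_toLp_sq {g : E ι → ℂ} (hg : MemLp g 2 μ) :
    ‖hg.toLp g‖ ^ 2 = ∫ x, ‖g x‖ ^ 2 ∂μ := by
  have h1 : ((‖hg.toLp g‖ ^ 2 : ℝ) : ℂ) = ((∫ x, ‖g x‖ ^ 2 ∂μ : ℝ) : ℂ) := by
    have h2 := inner_self_eq_norm_sq_to_K (𝕜 := ℂ) (hg.toLp g)
    rw [inner_toLp] at h2
    push_cast
    rw [← integral_complex_ofReal]
    refine Eq.trans h2.symm (integral_congr_ae (ae_of_all _ fun x => ?_))
    change g x * conj (g x) = _
    rw [RCLike.mul_conj]
    norm_cast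
  exact_mod_cast h1

/-- The normalised exponentials. -/
noncomputable def vv (μ : Measure (E ι)) [IsFiniteMeasure μ] (m : ℝ) (a : E ι) : Lp ℂ 2 μ :=
  (((Real.sqrt m)⁻¹ : ℝ) : ℂ) • (memLp_chi (μ := μ) a).toLp _

lemma inner_vv {m : ℝ} (a : E ι) {g : E ι → ℂ} (hg : MemLp g 2 μ) :
    inner ℂ (vv μ m a) (hg.toLp g) =
      (((Real.sqrt m)⁻¹ : ℝ) : ℂ) * ∫ x, g x * ee (-⟪a, x⟫_ℝ) ∂μ := by
  rw [vv, inner_smul_left, inner_toLp, Complex.conj_ofReal]
  simp only [conj_ee]

lemma orthonormal_vv {m : ℝ} (hm : 0 < m) (hμ : μ.real univ = m) {Λ : Set (E ι)}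
    (h : ∀ a ∈ Λ, ∀ b ∈ Λ, a ≠ b → ∫ x, ee (⟪a - b, x⟫_ℝ) ∂μ = 0) :
    Orthonormal ℂ (fun a : Λ => vv μ m (a : E ι)) := by
  have hs : (Real.sqrt m)⁻¹ * (Real.sqrt m)⁻¹ * m = 1 := by
    rw [← mul_inv, Real.mul_self_sqrt hm.le, inv_mul_cancel₀ hm.ne']
  have key : ∀ a b : E ι, inner ℂ (vv μ m a) (vv μ m b) =
      (((Real.sqrt m)⁻¹ * (Real.sqrt m)⁻¹ : ℝ) : ℂ) * ∫ x, ee (⟪b - a, x⟫_ℝ) ∂μ := by
    intro a b
    conv_lhs => rw [show vv μ m b = (((Real.sqrt m)⁻¹ : ℝ) : ℂ) •
      (memLp_chi (μ := μ) b).toLp _ from rfl]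
    rw [inner_smul_right, inner_vv, ← mul_assoc, ← Complex.ofReal_mul]
    congr 1
    refine integral_congr_ae (ae_of_all _ fun x => ?_)
    change ee ⟪b, x⟫_ℝ * ee (-⟪a, x⟫_ℝ) = ee (⟪b - a, x⟫_ℝ)
    rw [← ee_add, inner_sub_left]
    rfl
  rw [orthonormal_iff_ite]
  rintro ⟨a, ha⟩ ⟨b, hb⟩
  rw [key]
  split_ifs with hab
  · rw [Subtype.mk.injEq] at hab
    subst hab
    simp only [sub_self, inner_zero_left, ee_zero]
    rw [integral_const, hμ]
    rw [Complex.real_smul, mul_one, ← Complex.ofReal_mul, hs, Complex.ofReal_one]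
  · have hab' : b ≠ a := fun h' => hab (by subst h'; rfl)
    simp only
    rw [h b hb a ha hab', mul_zero]

end

lemma bdd_memLp {ι : Type} [Fintype ι] {μ : Measure (E ι)} [IsFiniteMeasure μ] {H : E ι → ℂ}
    (hH : Bdd H) (z : E ι) :
    MemLp (fun x => conj (H x * ee (-⟪z, x⟫_ℝ))) 2 μ := by
  obtain ⟨hm, ⟨C, hC⟩, -⟩ := hH
  refine MemLp.of_bound ?_ C (ae_of_all _ fun x => ?_)
  · have h1 : Measurable fun x : E ι => H x * ee (-⟪z, x⟫_ℝ) :=
      hm.mul (continuous_ee.comp (continuous_const.inner continuous_id).neg).measurable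
    exact (Complex.continuous_conj.measurable.comp h1).aestronglyMeasurable
  · rw [RCLike.norm_conj, norm_mul, norm_ee, mul_one]
    exact hC x

lemma inner_bdd {ι : Type} [Fintype ι] {Ω : Set (E ι)} {H : E ι → ℂ} (hs : SuppIn H Ω)
    (z a : E ι) : ∫ x in Ω, conj (H x * ee (-⟪z, x⟫_ℝ)) * ee (-⟪a, x⟫_ℝ) = conj (ft H (z - a)) := by
  rw [ft, ← integral_conj]
  rw [setIntegral_eq_integral_of_forall_compl_eq_zero]
  · refine integral_congr_ae (ae_of_all _ fun x => ?_)
    simp only [map_mul, conj_ee]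
    rw [mul_assoc, ← ee_add, inner_sub_left]
    congr 2
    ring
  · intro x hx
    rw [hs x hx]
    simp

lemma norm_bdd {ι : Type} [Fintype ι] {Ω : Set (E ι)} {H : E ι → ℂ} (hs : SuppIn H Ω)
    (z : E ι) : ∫ x in Ω, ‖conj (H x * ee (-⟪z, x⟫_ℝ))‖ ^ 2 = ∫ x, ‖H x‖ ^ 2 := by
  rw [setIntegral_eq_integral_of_forall_compl_eq_zero]
  · refine integral_congr_ae (ae_of_all _ fun x => ?_)
    simp only [RCLike.norm_conj, norm_mul, norm_ee, mul_one]
  · intro x hx
    rw [hs x hx]
    simp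

/-- PARS -/
theorem main : S_PARS := by
  intro ι _ Ω Λ hΩ hb hpos
  have hfin : volume Ω < ⊤ := hb.measure_lt_top
  have hm : 0 < (volume Ω).toReal := ENNReal.toReal_pos hpos.ne' hfin.ne
  have : IsFiniteMeasure (volume.restrict Ω) := ⟨by rwa [Measure.restrict_apply_univ]⟩
  have hμ : (volume.restrict Ω).real univ = (volume Ω).toReal := by
    rw [measureReal_def, Measure.restrict_apply_univ]
  have hsq : Real.sqrt (volume Ω).toReal ^ 2 = (volume Ω).toReal := Real.sq_sqrt hm.le
  have hcoef : ∀ (H : E ι → ℂ) (hH : Bdd H) (_ : SuppIn H Ω) (z a : E ι),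
      ‖inner ℂ (vv (volume.restrict Ω) (volume Ω).toReal a) ((bdd_memLp hH z).toLp _)‖ ^ 2 =
        (volume Ω).toReal⁻¹ * ‖ft H (z - a)‖ ^ 2 := by
    intro H hH hs z a
    rw [inner_vv, inner_bdd hs, norm_mul, RCLike.norm_conj, mul_pow, Complex.norm_real, norm_inv,
      Real.norm_of_nonneg (Real.sqrt_nonneg _), inv_pow, hsq]
  constructor
  · rintro ⟨h1, h2⟩ H hH hs z
    have hon := orthonormal_vv hm hμ h1
    have hbot : (Submodule.span ℂ (Set.range fun a : Λ =>
        vv (volume.restrict Ω) (volume Ω).toReal (a : E ι)))ᗮ = ⊥ := by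
      rw [Submodule.eq_bot_iff]
      intro f hf
      have hf2 := h2 f (Lp.memLp f) (by
        intro a ha
        have h3 : inner ℂ (vv (volume.restrict Ω) (volume Ω).toReal a) f = 0 :=
          (Submodule.mem_orthogonal _ _).1 hf _ (Submodule.subset_span ⟨⟨a, ha⟩, rfl⟩)
        have h4 := inner_vv (μ := volume.restrict Ω) (m := (volume Ω).toReal) a (Lp.memLp f)
        rw [Lp.toLp_coeFn, h3] at h4
        have h5 : (((Real.sqrt (volume Ω).toReal)⁻¹ : ℝ) : ℂ) ≠ 0 := by
          rw [Complex.ofReal_ne_zero]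
          exact inv_ne_zero (Real.sqrt_pos.2 hm).ne'
        exact (mul_eq_zero.1 h4.symm).resolve_left h5)
      exact (Lp.eq_zero_iff_ae_eq_zero).2 hf2
    set b := HilbertBasis.mkOfOrthogonalEqBot hon hbot with hbdef
    set G := (bdd_memLp (μ := volume.restrict Ω) hH z).toLp _ with hG
    have h3 := b.hasSum_inner_mul_inner G G
    have h4 : HasSum (fun a : Λ => ((‖inner ℂ (vv (volume.restrict Ω) (volume Ω).toReal (a : E ι))
        G‖ ^ 2 : ℝ) : ℂ)) ((‖G‖ ^ 2 : ℝ) : ℂ) := by
      have e1 : (fun a : Λ => ((‖inner ℂ (vv (volume.restrict Ω) (volume Ω).toReal (a : E ι))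
          G‖ ^ 2 : ℝ) : ℂ)) = fun a => inner ℂ G (b a) * inner ℂ (b a) G := by
        funext a
        rw [hbdef, HilbertBasis.coe_mkOfOrthogonalEqBot, ← inner_conj_symm G, RCLike.conj_mul]
        norm_cast
      have e2 : ((‖G‖ ^ 2 : ℝ) : ℂ) = inner ℂ G G := by
        rw [inner_self_eq_norm_sq_to_K]
        norm_cast
      rw [e1, e2]
      exact h3
    rw [Complex.hasSum_ofReal, hG, norm_toLp_sq, norm_bdd hs] at h4
    simp only [hcoef H hH hs] at h4
    have h5 := h4.mul_left (volume Ω).toReal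
    simpa only [← mul_assoc, mul_inv_cancel₀ hm.ne', one_mul] using h5
  · intro hP
    -- orthogonality
    have h1 : ∀ a ∈ Λ, ∀ b ∈ Λ, a ≠ b → ∫ x in Ω, ee (⟪a - b, x⟫_ℝ) = 0 := by
      intro a ha b hb' hab
      set H : E ι → ℂ := Ω.indicator fun _ => (1 : ℂ) with hHdef
      have hHb : Bdd H := by
        refine ⟨measurable_const.indicator hΩ, ⟨1, fun x => ?_⟩, ?_⟩
        · rw [hHdef, norm_indicator_eq_indicator_norm]
          exact Set.indicator_le_self' (fun _ _ => by simp) x |>.trans (by simp)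
        · obtain ⟨R, hR⟩ := hb.subset_closedBall 0
          refine ⟨R + 1, fun x hx => ?_⟩
          rw [hHdef, Set.indicator_of_notMem]
          intro hx'
          have := hR hx'
          rw [mem_closedBall_zero_iff] at this
          linarith
      have hHs : SuppIn H Ω := fun x hx => Set.indicator_of_notMem hx _
      have h2 := hP H hHb hHs b
      have h3 : ∫ x, ‖H x‖ ^ 2 = (volume Ω).toReal := by
        have : (fun x => ‖H x‖ ^ 2) = Ω.indicator fun _ => (1 : ℝ) := by
          ext x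
          by_cases hx : x ∈ Ω <;> simp [hHdef, hx]
        rw [this, integral_indicator hΩ]
        simp [measureReal_def]
      have h4 : ∀ c : E ι, ft H c = ∫ x in Ω, ee (-⟪c, x⟫_ℝ) := by
        intro c
        rw [ft, ← integral_indicator hΩ]
        congr 1
        ext x
        by_cases hx : x ∈ Ω <;> simp [hHdef, hx]
      have h5 : ‖ft H (b - b)‖ ^ 2 = (volume Ω).toReal * (volume Ω).toReal := by
        rw [sub_self, h4]
        simp only [inner_zero_left, neg_zero, ee_zero]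
        rw [setIntegral_const, measureReal_def, Complex.real_smul, mul_one, Complex.norm_real,
          Real.norm_of_nonneg hm.le]
        ring
      rw [h3] at h2
      have hne : (⟨a, ha⟩ : Λ) ≠ ⟨b, hb'⟩ := fun h => hab (by simpa using h)
      have h6 := sum_le_hasSum ({⟨a, ha⟩, ⟨b, hb'⟩} : Finset Λ) (fun _ _ => by positivity) h2
      rw [Finset.sum_pair hne] at h6
      simp only at h6
      rw [h5] at h6
      have h7 : ‖ft H (b - a)‖ ^ 2 = 0 := le_antisymm (by linarith) (by positivity)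
      have h8 : ft H (b - a) = 0 := by simpa using h7
      rw [h4] at h8
      rw [← h8]
      refine integral_congr_ae (ae_of_all _ fun x => ?_)
      simp only
      rw [← inner_neg_left, neg_sub]
    refine ⟨h1, fun f hf hf0 => ?_⟩
    have hon := orthonormal_vv hm hμ h1
    set F := hf.toLp f with hF
    have hF0 : ∀ a : Λ, inner ℂ (vv (volume.restrict Ω) (volume Ω).toReal (a : E ι)) F = 0 := by
      intro a
      rw [hF, inner_vv, hf0 a a.2, mul_zero]
    have hFz : F = 0 := by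
      by_contra hne
      have hFpos : 0 < ‖F‖ := norm_pos_iff.2 hne
      obtain ⟨g, hg1, hg2⟩ := hf.exists_simpleFunc_eLpNorm_sub_lt (by norm_num)
        (ε := ENNReal.ofReal (‖F‖ / 3)) (by simpa using hFpos)
      -- the bounded function
      set H : E ι → ℂ := Ω.indicator fun x => conj (g x) with hHdef
      have hHb : Bdd H := by
        refine ⟨(Complex.continuous_conj.measurable.comp g.measurable).indicator hΩ, ?_, ?_⟩
        · obtain ⟨C, hC⟩ := g.exists_forall_norm_le
          refine ⟨C, fun x => ?_⟩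
          rw [hHdef, norm_indicator_eq_indicator_norm]
          refine (Set.indicator_le_self' (fun _ _ => by positivity) x).trans ?_
          rw [RCLike.norm_conj]
          exact hC x
        · obtain ⟨R, hR⟩ := hb.subset_closedBall 0
          refine ⟨R + 1, fun x hx => ?_⟩
          rw [hHdef, Set.indicator_of_notMem]
          intro hx'
          have := hR hx'
          rw [mem_closedBall_zero_iff] at this
          linarith
      have hHs : SuppIn H Ω := fun x hx => Set.indicator_of_notMem hx _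
      set G := (bdd_memLp (μ := volume.restrict Ω) hHb 0).toLp _ with hG
      have hGg : G = hg2.toLp g := by
        rw [hG, MemLp.toLp_eq_toLp_iff]
        filter_upwards [ae_restrict_mem hΩ] with x hx
        simp [hHdef, hx, ee_zero]
      -- Parseval for `G`
      have h3 := (hP H hHb hHs 0).mul_left (volume Ω).toReal⁻¹
      simp only [← mul_assoc, inv_mul_cancel₀ hm.ne', one_mul] at h3
      rw [← norm_bdd hHs 0, ← norm_toLp_sq (bdd_memLp (μ := volume.restrict Ω) hHb 0)] at h3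
      have h4 : ∀ a : Λ, (volume Ω).toReal⁻¹ * ‖ft H (0 - a)‖ ^ 2 =
          ‖inner ℂ (vv (volume.restrict Ω) (volume Ω).toReal (a : E ι)) (G - F)‖ ^ 2 := by
        intro a
        rw [inner_sub_right, hF0, sub_zero, hG, hcoef H hHb hHs]
      simp only [h4] at h3
      have h5 := hon.tsum_inner_products_le (G - F)
      rw [h3.tsum_eq] at h5
      have h6 : ‖G‖ ≤ ‖G - F‖ := by
        have := abs_le_of_sq_le_sq h5 (norm_nonneg _)
        exact (le_abs_self _).trans this
      have h7 : ‖F - G‖ < ‖F‖ / 3 := by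
        rw [hGg, hF, ← MemLp.toLp_sub, Lp.norm_toLp]
        refine ENNReal.toReal_lt_of_lt_ofReal hg1
      have h8 : ‖F‖ ≤ ‖F - G‖ + ‖G‖ := by
        simpa using norm_add_le (F - G) G
      rw [norm_sub_rev] at h6
      linarith
    have h9 := hf.coeFn_toLp
    rw [← hF, hFz] at h9
    filter_upwards [h9, Lp.coeFn_zero ℂ 2 (volume.restrict Ω)] with x h10 h11
    rw [← h10, h11]

end Pool.Agent.Helper94.SPX.PARS
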