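import Pool.Agent.Helper94.SPX.PARS

/-!
# SPX swarm, part SEPA: spectra are separated
-/

set_option autoImplicit false

open MeasureTheory Filter Topology Set
open scoped InnerProductSpace ENNReal ComplexConjugate

namespace Pool.Agent.Helper94.SPX.SEPA

open Pool.Agent.Helper64.SPX Pool.Agent.Helper94.SPX.PARS

/-- SEPA -/
theorem main : S_SEPA := by
  intro ι _ Ω Λ hΩ hb hpos hΛ
  have hfin : volume Ω < ⊤ := hb.measure_lt_top
  have hm : 0 < (volume Ω).toReal := ENNReal.toReal_pos hpos.ne' hfin.ne
  have : IsFiniteMeasure (volume.restrict Ω) := ⟨by rwa [Measure.restrict_apply_univ]⟩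
  have hcont : Continuous fun z : E ι => ∫ x in Ω, ee (⟪z, x⟫_ℝ) := by
    refine continuous_of_dominated (bound := fun _ => 1) (fun z => ?_) (fun z => ?_) ?_ ?_
    · exact (continuous_chi z).aestronglyMeasurable
    · exact ae_of_all _ fun x => (norm_ee _).le
    · exact integrable_const _
    · exact ae_of_all _ fun x => continuous_ee.comp (continuous_id.inner continuous_const)
  have h0 : ∫ x in Ω, ee (⟪(0 : E ι), x⟫_ℝ) ≠ 0 := by
    simp only [inner_zero_left, ee_zero]
    rw [setIntegral_const, measureReal_def, Complex.real_smul, mul_one]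
    exact Complex.ofReal_ne_zero.2 hm.ne'
  have h1 := hcont.continuousAt.eventually_ne h0
  obtain ⟨r, hr, hr'⟩ := Metric.eventually_nhds_iff.1 h1
  refine ⟨r, hr, fun a ha b hb hab => ?_⟩
  by_contra hlt
  rw [not_le] at hlt
  exact hr' (y := a - b) (by rwa [dist_zero_right]) (hΛ.1 a ha b hb hab)

end Pool.Agent.Helper94.SPX.SEPA
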